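import Pool.Agent.helper70.QSD.SpecD

set_option autoImplicit false

namespace Pool.Agent.helper70.QSD

open Pool.Agent.helper53.AU
open scoped Classical
open FirstOrder

noncomputable section

section
variable {K : Type} [Field K] [CharP K 2]

theorem DSG_01 : ∀ a : ZMod 2, a = 0 ∨ a = 1 := by decide

theorem DSG_add0 (x y : K) : x + y = 0 ↔ x = y := by
  constructor
  · intro h
    rw [← sub_eq_zero, CharTwo.sub_eq_add]
    exact h
  · rintro rfl
    exact CharTwo.add_self_eq_zero x

/-- the linear map with values the combinations of `u, v, w` -/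
def DSG_hom (u v w : K) : (ZMod 2 × ZMod 2 × ZMod 2) →+ K where
  toFun p := ZMod.castHom (dvd_refl 2) K p.1 * u + ZMod.castHom (dvd_refl 2) K p.2.1 * v +
    ZMod.castHom (dvd_refl 2) K p.2.2 * w
  map_zero' := by
    simp only [Prod.fst_zero, Prod.snd_zero, map_zero, zero_mul, add_zero]
  map_add' p q := by
    simp only [Prod.fst_add, Prod.snd_add, map_add]
    ring

theorem DSG_hom_apply (u v w : K) (a b c : ZMod 2) : DSG_hom u v w (a, b, c) =
    ZMod.castHom (dvd_refl 2) K a * u + ZMod.castHom (dvd_refl 2) K b * v +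
    ZMod.castHom (dvd_refl 2) K c * w := rfl

theorem DSG_mem (u v w x : K) : x ∈ (DSG_hom u v w).range ↔ Sp3 u v w x := by
  rw [AddMonoidHom.mem_range]
  unfold Sp3
  constructor
  · rintro ⟨⟨a, b, c⟩, rfl⟩
    rw [DSG_hom_apply]
    rcases DSG_01 a with rfl | rfl <;> rcases DSG_01 b with rfl | rfl <;>
      rcases DSG_01 c with rfl | rfl <;>
      simp only [map_zero, map_one, zero_mul, one_mul, add_zero, zero_add] <;> tauto
  · rintro (rfl | rfl | rfl | rfl | rfl | rfl | rfl | rfl)
    · exact ⟨(0, 0, 0), by simp [DSG_hom_apply]⟩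
    · exact ⟨(1, 0, 0), by simp [DSG_hom_apply]⟩
    · exact ⟨(0, 1, 0), by simp [DSG_hom_apply]⟩
    · exact ⟨(0, 0, 1), by simp [DSG_hom_apply]⟩
    · exact ⟨(1, 1, 0), by simp [DSG_hom_apply]⟩
    · exact ⟨(1, 0, 1), by simp [DSG_hom_apply]⟩
    · exact ⟨(0, 1, 1), by simp [DSG_hom_apply]⟩
    · exact ⟨(1, 1, 1), by simp [DSG_hom_apply]⟩

theorem DSG_inj (u v w : K) : Function.Injective (DSG_hom u v w) ↔ Ind3 u v w := by
  constructor
  · intro h
    have h0 : ∀ a b c : ZMod 2, DSG_hom u v w (a, b, c) = 0 → (a, b, c) = (0 : ZMod 2 × ZMod 2 × ZMod 2) := by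
      intro a b c habc
      exact h (habc.trans (map_zero _).symm)
    have n1 : ((1 : ZMod 2), (0 : ZMod 2), (0 : ZMod 2)) ≠ 0 := by decide
    have n2 : ((0 : ZMod 2), (1 : ZMod 2), (0 : ZMod 2)) ≠ 0 := by decide
    have n3 : ((0 : ZMod 2), (0 : ZMod 2), (1 : ZMod 2)) ≠ 0 := by decide
    have n4 : ((1 : ZMod 2), (1 : ZMod 2), (0 : ZMod 2)) ≠ 0 := by decide
    have n5 : ((1 : ZMod 2), (0 : ZMod 2), (1 : ZMod 2)) ≠ 0 := by decide
    have n6 : ((0 : ZMod 2), (1 : ZMod 2), (1 : ZMod 2)) ≠ 0 := by decide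
    have n7 : ((1 : ZMod 2), (1 : ZMod 2), (1 : ZMod 2)) ≠ 0 := by decide
    refine ⟨fun hh => n1 (h0 _ _ _ ?_), fun hh => n2 (h0 _ _ _ ?_), fun hh => n4 (h0 _ _ _ ?_),
      fun hh => n3 (h0 _ _ _ ?_), fun hh => n5 (h0 _ _ _ ?_), fun hh => n6 (h0 _ _ _ ?_),
      fun hh => n7 (h0 _ _ _ ?_)⟩
    · simp [DSG_hom_apply, hh]
    · simp [DSG_hom_apply, hh]
    · simp only [DSG_hom_apply, map_zero, map_one, zero_mul, one_mul, add_zero]
      exact (DSG_add0 _ _).2 hh
    · simp [DSG_hom_apply, hh]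
    · simp only [DSG_hom_apply, map_zero, map_one, zero_mul, one_mul, add_zero]
      exact (DSG_add0 _ _).2 hh.symm
    · simp only [DSG_hom_apply, map_zero, map_one, zero_mul, one_mul, zero_add]
      exact (DSG_add0 _ _).2 hh.symm
    · simp only [DSG_hom_apply, map_one, one_mul]
      exact (DSG_add0 _ _).2 hh.symm
  · rintro ⟨h1, h2, h3, h4, h5, h6, h7⟩
    rw [injective_iff_map_eq_zero]
    rintro ⟨a, b, c⟩ h
    rw [DSG_hom_apply] at h
    rcases DSG_01 a with rfl | rfl <;> rcases DSG_01 b with rfl | rfl <;>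
      rcases DSG_01 c with rfl | rfl <;>
      simp only [map_zero, map_one, zero_mul, one_mul, add_zero, zero_add] at h
    · rfl
    · exact absurd h h4
    · exact absurd h h2
    · exact absurd ((DSG_add0 _ _).1 h).symm h6
    · exact absurd h h1
    · exact absurd ((DSG_add0 _ _).1 h).symm h5
    · exact absurd ((DSG_add0 _ _).1 h) h3
    · exact absurd ((DSG_add0 _ _).1 h).symm h7

theorem DSG_card8 : Nat.card (ZMod 2 × ZMod 2 × ZMod 2) = 8 := by
  rw [Nat.card_prod, Nat.card_prod, Nat.card_zmod]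

theorem DSG_card (u v w : K) : Nat.card (DSG_hom u v w).range = 8 ↔ Ind3 u v w := by
  rw [← DSG_inj]
  constructor
  · intro h
    have hs : Function.Surjective (DSG_hom u v w).rangeRestrict :=
      (DSG_hom u v w).rangeRestrict_surjective
    have hb := (Nat.bijective_iff_surjective_and_card (DSG_hom u v w).rangeRestrict).2
      ⟨hs, DSG_card8.trans h.symm⟩
    exact (DSG_hom u v w).rangeRestrict_injective_iff.1 hb.1
  · intro h
    have h1 := (DSG_hom u v w).rangeRestrict_injective_iff.2 h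
    have hb : Function.Bijective (DSG_hom u v w).rangeRestrict :=
      ⟨h1, (DSG_hom u v w).rangeRestrict_surjective⟩
    rw [← Nat.card_eq_of_bijective _ hb]
    exact DSG_card8

theorem DSG_le (u v w : K) (P : AddSubgroup K) (hu : u ∈ P) (hv : v ∈ P) (hw : w ∈ P) :
    (DSG_hom u v w).range ≤ P := by
  intro x hx
  rw [DSG_mem] at hx
  rcases hx with rfl | rfl | rfl | rfl | rfl | rfl | rfl | rfl
  · exact P.zero_mem
  · exact hu
  · exact hv
  · exact hw
  · exact P.add_mem hu hv
  · exact P.add_mem hu hw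
  · exact P.add_mem hv hw
  · exact P.add_mem (P.add_mem hu hv) hw

theorem DSG_closure (u v w : K) : AddSubgroup.closure ({u, v, w} : Set K) = (DSG_hom u v w).range := by
  apply le_antisymm
  · rw [AddSubgroup.closure_le]
    intro x hx
    simp only [Set.mem_insert_iff, Set.mem_singleton_iff] at hx
    show x ∈ (DSG_hom u v w).range
    rw [DSG_mem]
    unfold Sp3
    tauto
  · apply DSG_le
    · exact AddSubgroup.subset_closure (by simp)
    · exact AddSubgroup.subset_closure (by simp)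
    · exact AddSubgroup.subset_closure (by simp)

/-- the subgroup of order four -/
theorem DSG_T (u v : K) : ((DSG_hom u v 0).range : Set K) = (({0, u, v, u + v} : Finset K) : Set K) := by
  ext x
  show x ∈ (DSG_hom u v 0).range ↔ _
  rw [DSG_mem]
  unfold Sp3
  simp only [add_zero, Finset.coe_insert, Finset.coe_singleton, Set.mem_insert_iff,
    Set.mem_singleton_iff]
  tauto

theorem DSG_Tcard (u v : K) (hu : u ≠ 0) (hv : v ≠ 0) (huv : u ≠ v) :
    ((DSG_hom u v 0).range : Set K).ncard = 4 := by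
  rw [DSG_T, Set.ncard_coe_finset]
  have h1 : u + v ≠ 0 := fun h => huv ((DSG_add0 _ _).1 h)
  rw [Finset.card_insert_of_notMem, Finset.card_insert_of_notMem, Finset.card_insert_of_notMem,
    Finset.card_singleton]
  · rw [Finset.mem_singleton]
    intro h
    exact hu (left_eq_add.1 (h.trans (add_comm u v)))
  · rw [Finset.mem_insert, Finset.mem_singleton, not_or]
    exact ⟨huv, fun h => hv (left_eq_add.1 h)⟩
  · rw [Finset.mem_insert, Finset.mem_insert, Finset.mem_singleton, not_or, not_or]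
    exact ⟨hu.symm, hv.symm, h1.symm⟩

end

theorem DSG : DSG_stmt := by
  intro K _ _ _ _ r θ a lam hD u v hu hv huv
  obtain ⟨-, hD2⟩ := hD
  have hTc : ((DSG_hom u v 0).range : Set K).ncard = 4 := DSG_Tcard u v hu hv huv
  have hlam := hD2 (DSG_hom u v 0).range (by rw [← hTc, ← Nat.card_coe_set_eq]; rfl)
  have huT : u ∈ (DSG_hom u v 0).range := by
    rw [DSG_mem]; unfold Sp3; tauto
  have hvT : v ∈ (DSG_hom u v 0).range := by
    rw [DSG_mem]; unfold Sp3; tauto
  -- the blocks
  have hfin : {P : AddSubgroup K | P ∈ Blocks θ a ∧ (DSG_hom u v 0).range ≤ P}.Finite := Set.toFinite _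
  obtain ⟨B, hB⟩ : ∃ B : Finset (AddSubgroup K), ∀ P, P ∈ B ↔ P ∈ Blocks θ a ∧ (DSG_hom u v 0).range ≤ P :=
    ⟨hfin.toFinset, fun P => by rw [Set.Finite.mem_toFinset]; rfl⟩
  have hBc : B.card = lam := by
    rw [← hlam, ← Set.ncard_coe_finset]
    congr 1
    ext P
    exact hB P
  obtain ⟨W, hW⟩ : ∃ W : Finset K, ∀ w, w ∈ W ↔ (Ind3 u v w ∧ Blk3 θ a u v w) :=
    ⟨Finset.univ.filter fun w => Ind3 u v w ∧ Blk3 θ a u v w, fun w => by simp⟩
  refine ⟨W, ?_, hW⟩
  have hmaps : ∀ w ∈ W, (DSG_hom u v w).range ∈ B := by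
    intro w hw
    obtain ⟨hI, u', v', w', h1, h2, h3, hI', hθ⟩ := (hW w).1 hw
    rw [hB]
    have hc : Nat.card (DSG_hom u v w).range = 8 := (DSG_card u v w).2 hI
    refine ⟨⟨hc, u', v', w', ?_, hθ⟩, ?_⟩
    · rw [DSG_closure]
      symm
      apply AddSubgroup.eq_of_le_of_card_ge
      · exact DSG_le u' v' w' _ ((DSG_mem _ _ _ _).2 h1) ((DSG_mem _ _ _ _).2 h2) ((DSG_mem _ _ _ _).2 h3)
      · rw [hc, (DSG_card u' v' w').2 hI']
    · apply DSG_le
      · rw [DSG_mem]; unfold Sp3; tauto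
      · rw [DSG_mem]; unfold Sp3; tauto
      · exact zero_mem _
  have hfib : ∀ P ∈ B, (W.filter fun w => (DSG_hom u v w).range = P).card = 4 := by
    intro P hP
    obtain ⟨⟨hP8, u', v', w', hPc, hθ⟩, hTP⟩ := (hB P).1 hP
    have e : ((W.filter fun w => (DSG_hom u v w).range = P : Finset K) : Set K) =
        (P : Set K) \ ((DSG_hom u v 0).range : Set K) := by
      ext w
      rw [Finset.mem_coe, Finset.mem_filter, hW, Set.mem_sdiff]
      constructor
      · rintro ⟨⟨hI, -⟩, rfl⟩
        refine ⟨?_, ?_⟩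
        · show w ∈ (DSG_hom u v w).range
          rw [DSG_mem]; unfold Sp3; tauto
        · rw [DSG_T]
          obtain ⟨-, -, -, h4, h5, h6, h7⟩ := hI
          simp only [Finset.coe_insert, Finset.coe_singleton, Set.mem_insert_iff,
            Set.mem_singleton_iff]
          tauto
      · rintro ⟨hwP, hwT⟩
        rw [DSG_T] at hwT
        simp only [Finset.coe_insert, Finset.coe_singleton, Set.mem_insert_iff,
          Set.mem_singleton_iff, not_or] at hwT
        obtain ⟨h4, h5, h6, h7⟩ := hwT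
        have hI : Ind3 u v w := ⟨hu, hv, huv, h4, h5, h6, h7⟩
        have hle : (DSG_hom u v w).range ≤ P := DSG_le u v w P (hTP huT) (hTP hvT) hwP
        have heq : (DSG_hom u v w).range = P := by
          apply AddSubgroup.eq_of_le_of_card_ge hle
          rw [hP8, (DSG_card u v w).2 hI]
        refine ⟨⟨hI, u', v', w', ?_, ?_, ?_, ?_, hθ⟩, heq⟩
        · rw [← DSG_mem, heq, hPc]
          exact AddSubgroup.subset_closure (by simp)
        · rw [← DSG_mem, heq, hPc]
          exact AddSubgroup.subset_closure (by simp)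
        · rw [← DSG_mem, heq, hPc]
          exact AddSubgroup.subset_closure (by simp)
        · rw [← DSG_card, ← DSG_closure, ← hPc]
          exact hP8
    rw [← Set.ncard_coe_finset, e, Set.ncard_sdiff hTP, hTc, ← Nat.card_coe_set_eq]
    have : Nat.card (P : Set K) = 8 := hP8
    rw [this]
  rw [Finset.card_eq_sum_card_fiberwise (t := B) hmaps, Finset.sum_congr rfl hfib, Finset.sum_const,
    hBc, smul_eq_mul, mul_comm]

end

end Pool.Agent.helper70.QSD
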