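import Pool.Agent.helper70.QSD.SpecB

set_option autoImplicit false

namespace Pool.Agent.helper70.QSD

open Pool.Agent.helper53.AU
open scoped Classical IntermediateField Polynomial

noncomputable section

/-- the power as a ring homomorphism -/
theorem EVL_frob (N : ℕ) (x : kk) : iterateFrobenius kk 2 N x = x ^ 2 ^ N :=
  iterateFrobenius_def 2 N x

theorem EVL_comp (N : ℕ) (σ : kk ≃+* kk) (hσ : ∀ c : kk, σ c ^ 2 ^ N = c) (c : kk) :
    ((iterateFrobenius kk 2 N).comp ((Polynomial.aeval c : kk[X] →ₐ[kk] kk) : kk[X] →+* kk)).comp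
      (Polynomial.mapRingHom (σ : kk →+* kk)) =
    ((Polynomial.aeval (c ^ 2 ^ N) : kk[X] →ₐ[kk] kk) : kk[X] →+* kk) := by
  apply Polynomial.ringHom_ext
  · intro a
    simp only [RingHom.coe_comp, Function.comp_apply, Polynomial.coe_mapRingHom, Polynomial.map_C,
      RingHom.coe_coe, Polynomial.aeval_C, EVL_frob]
    exact hσ a
  · simp only [RingHom.coe_comp, Function.comp_apply, Polynomial.coe_mapRingHom, Polynomial.map_X,
      RingHom.coe_coe, Polynomial.aeval_X, EVL_frob]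

theorem EVL_ev (N : ℕ) (σ : kk ≃+* kk) (hσ : ∀ c : kk, σ c ^ 2 ^ N = c) (c w : kk) (Q : kk[X][X]) :
    (ev c w (mp2 (σ : kk →+* kk) Q)) ^ 2 ^ N = ev (c ^ 2 ^ N) (w ^ 2 ^ N) Q := by
  unfold ev mp2
  rw [Polynomial.eval₂_map, ← EVL_frob N (Polynomial.eval₂ _ _ _), Polynomial.hom_eval₂, EVL_frob,
    ← RingHom.comp_assoc, EVL_comp N σ hσ]

theorem EVL_eval (N : ℕ) (σ : kk ≃+* kk) (hσ : ∀ c : kk, σ c ^ 2 ^ N = c) (c : kk) (h : kk[X]) :
    (Polynomial.aeval c (h.map (σ : kk →+* kk))) ^ 2 ^ N = Polynomial.aeval (c ^ 2 ^ N) h := by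
  have h1 := congrArg (fun f : kk[X] →+* kk => f h) (EVL_comp N σ hσ c)
  simp only [RingHom.coe_comp, Function.comp_apply, Polynomial.coe_mapRingHom, RingHom.coe_coe,
    EVL_frob] at h1
  exact h1

theorem EVL (hEVR : EVR_stmt) : EVL_stmt := by
  intro N σ hσ P h G Q G' M c b hc hP hh hw hQ hdvd
  obtain ⟨r1, r2, r3, r4, r5, r6⟩ := hEVR.1 kk kk c b
  have r7 := hEVR.2.1 kk kk c b (mp2 (σ : kk →+* kk) Q) G h M
    ((Polynomial.natDegree_map_le).trans hQ)
  have hae : ∀ f : kk[X], Polynomial.aeval c f = Polynomial.eval c f := fun f => by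
    rw [Polynomial.aeval_def, Polynomial.eval₂_eq_eval_map]
    simp
  have r7' := r7 (by rw [hae]; exact hh)
  obtain ⟨R, hR⟩ := hdvd
  have e0 := congrArg (ev c b) hR
  have rp : ev c b (Polynomial.C h ^ M) = Polynomial.aeval c h ^ M := by
    rw [← map_pow, r4, map_pow]
  rw [r3 P R, hP, zero_mul, r2, r3, r4, r7', r3, r3, r4, rp, sub_eq_zero] at e0
  rw [hae h] at e0
  obtain ⟨H, hH⟩ : ∃ H, H = Polynomial.eval c h := ⟨_, rfl⟩
  rw [← hH] at e0 hh hw ⊢
  have hHM : H ^ M ≠ 0 := pow_ne_zero M hh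
  have e1 : H * ev c (ev c b G / H) (mp2 (σ : kk →+* kk) Q) =
      Polynomial.aeval c (h.map (σ : kk →+* kk)) * ev c b G' := by
    apply mul_left_cancel₀ hHM
    linear_combination e0
  have e2 := congrArg (fun x => x ^ 2 ^ N) e1
  simp only [mul_pow] at e2
  rw [EVL_ev N σ hσ, EVL_eval N σ hσ, hw, hc, hae, ← hH] at e2
  rw [div_pow, div_eq_div_iff (pow_ne_zero _ hh) hh]
  linear_combination -e2

end

end Pool.Agent.helper70.QSD
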